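import Pool.Agent.Q14.EnergyBound

/-!
MP_8ce0fa_co: a graph on 12 vertices with an edge whose subdivision decreases the energy although
neither of the two conditions of the conjecture holds.
-/

namespace Pool.Agent.Results.MP_8ce0fa_co.TwelveVertices

open Pool.Agent.Q14.Energy Matrix

open Classical in
theorem isHermitian {V : Type} [Fintype V] (G : SimpleGraph V) : (G.adjMatrix ℝ).IsHermitian := by
  rw [Matrix.IsHermitian, Matrix.conjTranspose_eq_transpose_of_trivial]
  exact G.isSymm_adjMatrix

open Classical in
/-- The energy of a graph: the sum of the absolute values of its adjacency eigenvalues. -/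
noncomputable def energy {V : Type} [Fintype V] (G : SimpleGraph V) : ℝ :=
  ∑ k, |(isHermitian G).eigenvalues k|

/-- The graph `G_{ij}` obtained by subdividing the edge `ij`; the new vertex is `none`. -/
def subdivide {V : Type} (G : SimpleGraph V) (i j : V) : SimpleGraph (Option V) where
  Adj
    | some a, some b => G.Adj a b ∧ ¬ ((a = i ∧ b = j) ∨ (a = j ∧ b = i))
    | some a, none => a = i ∨ a = j
    | none, some b => b = i ∨ b = j
    | none, none => False
  symm := ⟨by
    rintro (_ | a) (_ | b) h
    · exact h
    · exact h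
    · exact h
    · exact ⟨h.1.symm, fun hc => h.2 (by tauto)⟩⟩
  loopless := ⟨by
    rintro (_ | a) h
    · exact h
    · exact G.loopless.irrefl a h.1⟩

/-- Condition 1: `ij` is the central edge of some induced diamond `{i, j, a, b}` (all pairs except
`a, b` are adjacent). -/
def CentralEdge {V : Type} (G : SimpleGraph V) (i j : V) : Prop :=
  ∃ a b : V, a ≠ b ∧ G.Adj i j ∧ G.Adj i a ∧ G.Adj j a ∧ G.Adj i b ∧ G.Adj j b ∧ ¬ G.Adj a b

open Classical in
/-- Condition 2: with `W = N[i]` one has `N[j] = W`, `G[W]` is complete and every vertex of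
`W \ {i, j}` has degree strictly larger than the degree of `i`. -/
def CliqueCondition {V : Type} [Fintype V] (G : SimpleGraph V) (i j : V) : Prop :=
  insert i (G.neighborSet i) = insert j (G.neighborSet j) ∧
    G.IsClique (insert i (G.neighborSet i)) ∧
    ∀ w ∈ insert i (G.neighborSet i), w ≠ i → w ≠ j → G.degree i < G.degree w

/-- The statement of Q1. -/
def Statement : Prop :=
  ∀ (V : Type) [Fintype V] (G : SimpleGraph V) (i j : V), G.Adj i j →
    energy (subdivide G i j) < energy G → CentralEdge G i j ∨ CliqueCondition G i j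

def adjL : List (List ℤ) :=
  [[0,1,0,1,0,0,1,1,1,0,0,0],
  [1,0,0,1,1,0,1,1,1,0,0,0],
  [0,0,0,1,0,1,0,1,1,1,1,1],
  [1,1,1,0,0,0,1,1,1,1,1,1],
  [0,1,0,0,0,1,1,0,1,0,1,0],
  [0,0,1,0,1,0,1,1,1,1,1,1],
  [1,1,0,1,1,1,0,1,1,1,1,1],
  [1,1,1,1,0,1,1,0,1,1,0,1],
  [1,1,1,1,1,1,1,1,0,0,1,1],
  [0,0,1,1,0,1,1,1,0,0,1,1],
  [0,0,1,1,1,1,1,0,1,1,0,1],
  [0,0,1,1,0,1,1,1,1,1,1,0]]
def xL : List (List ℤ) :=
  [[-378342758,541838583,-105943000,379528917,-96633002,-258942668,226529249,379528917,226529249,-105943000,-258942668,-71165741],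
  [541838583,-379258187,-228875316,220903914,286554136,-112483764,337295466,220903914,337295466,-228875316,-112483764,-153801787],
  [-105943000,-228875316,-316496076,235276477,-242066661,222085132,-225342315,235276477,274257685,183103924,222085132,396925030],
  [379528917,220903914,235276477,-299050792,-278674776,-299029481,165843250,200549208,165843250,235276477,200570519,230832360],
  [-96633002,286554136,-242066661,-278674776,-23459392,410511697,373903581,-278674776,373903581,-242066661,410511697,-131300444],
  [-258942668,-112483764,222085132,-299029481,410511697,-275634021,202451366,200570519,202451366,222085132,223965979,253333702],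
  [226529249,337295466,-225342315,165843250,373903581,202451366,-405563069,165843250,94036931,274257685,202451366,87241032],
  [379528917,220903914,235276477,200549208,-278674776,200570519,165843250,-299050792,165843250,235276477,-299029481,230832360],
  [226529249,337295466,274257685,165843250,373903581,202451366,94036931,165843250,-405563069,-225342315,202451366,87241032],
  [-105943000,-228875316,183103924,235276477,-242066661,222085132,274257685,235276477,-225342315,-316496076,222085132,396925030],
  [-258942668,-112483764,222085132,200570519,410511697,223965979,202451366,-299029481,202451366,222085132,-275634021,253333702],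
  [-71165741,-153801787,396925030,230832360,-131300444,253333702,87241032,230832360,87241032,396925030,253333702,-622251750]]
def b1L : List (List ℤ) :=
  [[37121,-14597,2854,-10224,2603,6976,-6103,-10224,-6103,2854,6976,1917],
  [0,34144,7923,-10841,-7280,6277,-12488,-10841,-12488,7923,6277,5324],
  [0,0,35287,-3406,8284,-8267,9684,-3406,-4475,-7199,-8267,-12599],
  [0,0,0,32634,7801,12571,-10131,-13305,-11609,-4435,-2738,-6019],
  [0,0,0,0,28876,-14288,-15588,12412,-11127,13387,-10151,10957],
  [0,0,0,0,0,27508,-3519,9278,-4782,-3789,-17849,-6255],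
  [0,0,0,0,0,0,27572,-8679,-20012,2257,-9076,7281],
  [0,0,0,0,0,0,0,23927,-21923,-13171,24517,-12174],
  [0,0,0,0,0,0,0,0,5426,26769,1340,-30312],
  [0,0,0,0,0,0,0,0,0,9219,1345,-10600],
  [0,0,0,0,0,0,0,0,0,0,1621,-1088],
  [0,0,0,0,0,0,0,0,0,0,0,1456]]
def b2L : List (List ℤ) :=
  [[24925,21739,-4250,15227,-3877,-10389,9088,15227,9088,-4250,-10389,-2855],
  [0,12156,-11227,-9058,30506,9325,11494,-9058,11494,-11227,9325,-7546],
  [0,0,23216,8542,3616,12173,-2484,8542,19036,1680,12173,12925],
  [0,0,0,17711,1456,-9054,8626,-10519,-1752,10387,19154,5395],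
  [0,0,0,0,3910,14048,14043,10515,-1991,16047,3541,8503],
  [0,0,0,0,0,10079,9997,9555,-2970,12977,452,6559],
  [0,0,0,0,0,0,1262,284,-503,1132,345,412],
  [0,0,0,0,0,0,0,1049,3,169,-496,113],
  [0,0,0,0,0,0,0,0,927,-409,85,-37],
  [0,0,0,0,0,0,0,0,0,949,273,275],
  [0,0,0,0,0,0,0,0,0,0,901,141],
  [0,0,0,0,0,0,0,0,0,0,0,702]]
def pL : List (List ℤ) :=
  [[758507845,650784286,196641106,677923210,108172775,89717548,570999651,677923210,570999651,196641106,89717548,271067818,481282104],
  [650784286,849443244,82388586,554794254,586545747,280247544,752653212,554794254,752653212,82388586,280247544,209063631,472405668],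
  [196641106,82388586,864277639,733194554,140198936,749225119,618942034,733194554,618942034,863477639,749225119,899978969,-130283085],
  [677923210,554794254,733194554,993186937,231134335,610065598,869257982,992386937,869257982,733194554,610065598,818910074,259192383],
  [108172775,586545747,140198936,231134335,943026071,618571908,709507307,231134335,709507307,140198936,618571908,269604163,90935399],
  [89717548,280247544,749225119,610065598,618571908,940555116,800595595,610065598,800595595,749225119,939755116,837974783,-139159521],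
  [570999651,752653212,618942034,869257982,709507307,800595595,1051711542,869257982,1050911542,618942034,800595595,756905888,250315948],
  [677923210,554794254,733194554,992386937,231134335,610065598,869257982,993186937,869257982,733194554,610065598,818910074,259192383],
  [570999651,752653212,618942034,869257982,709507307,800595595,1050911542,869257982,1051711542,618942034,800595595,756905888,250315948],
  [196641106,82388586,863477639,733194554,140198936,749225119,618942034,733194554,618942034,864277639,749225119,899978969,-130283085],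
  [89717548,280247544,749225119,610065598,618571908,939755116,800595595,610065598,800595595,749225119,940555116,837974783,-139159521],
  [271067818,209063631,899978969,818910074,269604163,837974783,756905888,818910074,756905888,899978969,837974783,959824121,-81068895],
  [481282104,472405668,-130283085,259192383,90935399,-139159521,250315948,259192383,250315948,-130283085,-139159521,-81068895,390275469]]
def b3L : List (List ℤ) :=
  [[27534,23636,7142,24622,3929,3258,20738,24622,20738,7142,3258,9845,17480],
  [0,17041,-5071,-1594,28971,11926,15404,-1594,15404,-5071,11926,-1387,3477],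
  [0,0,28056,19577,9233,28030,19566,19577,19566,28042,28030,29321,-8465],
  [0,0,0,867,-222,91,174,406,174,322,91,317,84],
  [0,0,0,0,1605,913,723,-64,723,127,913,274,-190],
  [0,0,0,0,0,869,231,115,231,293,409,317,-178],
  [0,0,0,0,0,0,737,136,194,86,144,115,49],
  [0,0,0,0,0,0,0,743,99,150,45,151,54],
  [0,0,0,0,0,0,0,0,704,46,105,67,30],
  [0,0,0,0,0,0,0,0,0,750,148,204,-113],
  [0,0,0,0,0,0,0,0,0,0,730,117,-107],
  [0,0,0,0,0,0,0,0,0,0,0,701,-59],
  [0,0,0,0,0,0,0,0,0,0,0,0,696]]
def b4L : List (List ℤ) :=
  [[27534,23636,7142,-11698,3929,3258,-15581,-11698,-15581,7142,3258,9845,-18839],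
  [0,17041,-5071,-9901,-29712,11926,7096,-9901,7096,-5071,11926,-1387,-4830],
  [0,0,28056,-8322,-1373,-7612,27309,-8322,-8333,-7601,-7612,-6322,-721],
  [0,0,0,26243,-1087,26785,-590,-11879,-11892,-11307,-11321,-5040,-572],
  [0,0,0,0,6429,-3302,2865,-6444,-6659,-9528,-9743,27309,3084],
  [0,0,0,0,0,999,-118,-179,-139,-21,19,-527,-158],
  [0,0,0,0,0,0,1955,-2073,-1323,-2870,-2121,5890,797],
  [0,0,0,0,0,0,0,22399,-22279,-22251,22379,-180,-13],
  [0,0,0,0,0,0,0,0,2198,2465,-190,-3145,-220],
  [0,0,0,0,0,0,0,0,0,1167,61,-1342,-229],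
  [0,0,0,0,0,0,0,0,0,0,957,-685,-121],
  [0,0,0,0,0,0,0,0,0,0,0,1511,125],
  [0,0,0,0,0,0,0,0,0,0,0,0,690]]

/-- an entry of a list of rows -/
def ent (L : List (List ℤ)) (i j : ℕ) : ℤ := (L.getD i []).getD j 0

/-- a matrix from a list of rows -/
def mat (L : List (List ℤ)) : Matrix (Fin 12) (Fin 12) ℤ := fun i j => ent L i j

def idx : Option (Fin 12) → ℕ
  | none => 12
  | some a => a

/-- a matrix indexed by `Option (Fin 12)` from a list of rows; `none` is the last index -/
def matO (L : List (List ℤ)) : Matrix (Option (Fin 12)) (Option (Fin 12)) ℤ :=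
  fun i j => ent L (idx i) (idx j)

/-- the graph on 12 vertices -/
def G12 : SimpleGraph (Fin 12) where
  Adj i j := ent adjL i j = 1
  symm := ⟨by decide +kernel⟩
  loopless := ⟨by decide +kernel⟩

/-- the adjacency matrix of the subdivided graph -/
def subMat : Matrix (Option (Fin 12)) (Option (Fin 12)) ℤ
  | some a, some b => if (a = 0 ∧ b = 1) ∨ (a = 1 ∧ b = 0) then 0 else ent adjL a b
  | some a, none => if a = 0 ∨ a = 1 then 1 else 0
  | none, some b => if b = 0 ∨ b = 1 then 1 else 0
  | none, none => 0

theorem zero_or_one : ∀ i j : Fin 12, ent adjL i j = 0 ∨ ent adjL i j = 1 := by decide +kernel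

theorem check1 : psdCheck ((1000000000 : ℤ) • (1 : Matrix (Fin 12) (Fin 12) ℤ) - mat xL) (mat b1L)
    = true := by decide +kernel

theorem check2 : psdCheck ((1000000000 : ℤ) • (1 : Matrix (Fin 12) (Fin 12) ℤ) + mat xL) (mat b2L)
    = true := by decide +kernel

theorem check3 : psdCheck (matO pL) (matO b3L) = true := by decide +kernel

theorem check4 : psdCheck (matO pL - (1000000000 : ℤ) • subMat) (matO b4L) = true := by
  decide +kernel

theorem numbers : trace (matO pL) + trace (matO pL - (1000000000 : ℤ) • subMat) <
    trace (mat adjL * mat xL) := by decide +kernel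

open Classical in
theorem entry_eq {V : Type} (G : SimpleGraph V) (i j : V) (c : ℤ) (h1 : G.Adj i j → c = 1)
    (h0 : ¬ G.Adj i j → c = 0) : G.adjMatrix ℝ i j = (c : ℝ) := by
  rw [SimpleGraph.adjMatrix_apply]
  by_cases h : G.Adj i j
  · rw [if_pos h, h1 h]; simp
  · rw [if_neg h, h0 h]; simp

open Classical in
theorem adj_eq : G12.adjMatrix ℝ = (mat adjL).map (Int.cast : ℤ → ℝ) := by
  ext i j
  rw [Matrix.map_apply]
  apply entry_eq
  · intro h; exact h
  · intro h
    exact (zero_or_one i j).resolve_right h

open Classical in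
theorem sub_eq : (subdivide G12 0 1).adjMatrix ℝ = subMat.map (Int.cast : ℤ → ℝ) := by
  ext i j
  rw [Matrix.map_apply]
  apply entry_eq
  · intro h
    rcases i with _ | a <;> rcases j with _ | b
    · exact h.elim
    · exact if_pos h
    · exact if_pos h
    · have h' : G12.Adj a b ∧ ¬ ((a = 0 ∧ b = 1) ∨ (a = 1 ∧ b = 0)) := h
      show (if (a = 0 ∧ b = 1) ∨ (a = 1 ∧ b = 0) then (0 : ℤ) else ent adjL a b) = 1
      rw [if_neg h'.2]; exact h'.1
  · intro h
    rcases i with _ | a <;> rcases j with _ | b
    · rfl
    · exact if_neg h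
    · exact if_neg h
    · have h' : ¬ (G12.Adj a b ∧ ¬ ((a = 0 ∧ b = 1) ∨ (a = 1 ∧ b = 0))) := h
      show (if (a = 0 ∧ b = 1) ∨ (a = 1 ∧ b = 0) then (0 : ℤ) else ent adjL a b) = 0
      by_cases hc : (a = 0 ∧ b = 1) ∨ (a = 1 ∧ b = 0)
      · rw [if_pos hc]
      · rw [if_neg hc]
        exact (zero_or_one a b).resolve_right (fun h1 => h' ⟨h1, hc⟩)

theorem energy_lt : energy (subdivide G12 0 1) < energy G12 := by
  classical
  have h1 := scaled_lower (isHermitian G12) (s := 1000000000) (by norm_num) adj_eq check1 check2
  have h2 := scaled_upper (isHermitian (subdivide G12 0 1)) (s := 1000000000) (by norm_num) sub_eq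
    check3 check4 (by rw [sub_sub_cancel])
  have h3 : ((trace (matO pL) + trace (matO pL - (1000000000 : ℤ) • subMat) : ℤ) : ℝ) <
      ((trace (mat adjL * mat xL) : ℤ) : ℝ) := by exact_mod_cast numbers
  have h4 : ((1000000000 : ℤ) : ℝ) * absEig (isHermitian (subdivide G12 0 1)) <
      ((1000000000 : ℤ) : ℝ) * absEig (isHermitian G12) := by linarith
  have h5 : absEig (isHermitian (subdivide G12 0 1)) < absEig (isHermitian G12) :=
    lt_of_mul_lt_mul_left h4 (by norm_num)
  exact h5

/-- The statement of Q1 is false. -/
theorem result : ¬ Statement := by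
  intro h
  have hadj : G12.Adj 0 1 := by show ent adjL 0 1 = 1; decide +kernel
  rcases h (Fin 12) G12 0 1 hadj energy_lt with hc | hc
  · obtain ⟨a, b, hab, _, h1, h2, h3, h4, h5⟩ := hc
    have key : ∀ a b : Fin 12, a ≠ b → ent adjL 0 a = 1 → ent adjL 1 a = 1 → ent adjL 0 b = 1 →
        ent adjL 1 b = 1 → ent adjL a b = 1 := by decide +kernel
    exact h5 (key a b hab h1 h2 h3 h4)
  · have h1 := hc.1
    have h4 : (4 : Fin 12) ∈ insert (1 : Fin 12) (G12.neighborSet 1) := by
      right
      show ent adjL 1 4 = 1
      decide +kernel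
    rw [← h1] at h4
    rcases h4 with h4 | h4
    · exact absurd h4 (by decide)
    · have : ent adjL 0 4 = 1 := h4
      exact absurd this (by decide +kernel)

end Pool.Agent.Results.MP_8ce0fa_co.TwelveVertices
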